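import Mathlib
import Pool.Agent.R605.RiemannBox2

open Filter Topology

namespace Pool.Agent.Results.MP_dace02_an.LargeUpperBoxDim

/-- The closed grid squares `[i/N,(i+1)/N] × [j/N,(j+1)/N]`, `i,j ∈ ℤ`, which meet the graph of `f`
over `[0,1]`. -/
def squares (f : ℝ → ℝ) (N : ℕ) : Set (ℤ × ℤ) :=
  {p | ∃ x ∈ Set.Icc (0 : ℝ) 1, x ∈ Set.Icc ((p.1 : ℝ) / N) (((p.1 : ℝ) + 1) / N) ∧
    f x ∈ Set.Icc ((p.2 : ℝ) / N) (((p.2 : ℝ) + 1) / N)}

/-- `A_N(f)`, the number of such squares. -/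
noncomputable def A (f : ℝ → ℝ) (N : ℕ) : ℕ := (squares f N).ncard

/-- The upper box dimension of the graph of `f` over `[0,1]`. -/
noncomputable def upperBoxDim (f : ℝ → ℝ) : EReal :=
  limsup (fun N : ℕ => ((Real.log (A f N) / Real.log N : ℝ) : EReal)) atTop

/-- `G_δ(x) = ∑_{n ≥ 1} g(n² x)/n^{1+δ}` (the summation index is shifted by one). -/
noncomputable def G (δ : ℝ) (g : ℝ → ℝ) (x : ℝ) : ℝ :=
  ∑' n : ℕ, g (((n : ℝ) + 1) ^ 2 * x) / ((n : ℝ) + 1) ^ (1 + δ)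

/-- The Fourier coefficients `C_m = ∫_0^1 g(x) e^{-2πimx} dx` of a `1`-periodic function. -/
noncomputable def fourierC (g : ℝ → ℝ) (m : ℤ) : ℂ :=
  ∫ x in (0 : ℝ)..1, (g x : ℂ) * Complex.exp (-(2 * Real.pi * Complex.I * m * x))

/-- Condition (H). -/
def condH (δ : ℝ) (g : ℝ → ℝ) : Prop :=
  ∃ ε > 0, Summable (fun k : ℕ => ‖fourierC g k‖ * (k : ℝ) ^ ((ε + δ) / 2))

/-- Condition (NV). -/
def condNV (δ : ℝ) (g : ℝ → ℝ) : Prop :=
  ∃ d₀ : ℕ, Squarefree d₀ ∧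
    ∑' m : ℕ, fourierC g (((m + 1) ^ 2 * d₀ : ℕ) : ℤ) *
      (((((m + 1) ^ 2 * d₀ : ℕ) : ℝ) ^ (δ / 2) : ℝ) : ℂ) ≠ 0

/-- For every `δ ∈ (0,1]` there is a continuous `1`-periodic `g` satisfying (H) and (NV) such that
the upper box dimension of the graph of `G_δ` is at least `15/8 - δ/2`, hence larger than
`7/4 - δ/2`. -/
theorem result : ∀ δ : ℝ, 0 < δ → δ ≤ 1 → ∃ g : ℝ → ℝ, Continuous g ∧ (∀ x, g (x + 1) = g x) ∧
    condH δ g ∧ condNV δ g ∧ ((15 / 8 - δ / 2 : ℝ) : EReal) ≤ upperBoxDim (G δ g) ∧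
    ((7 / 4 - δ / 2 : ℝ) : EReal) < upperBoxDim (G δ g) := by
  intro δ hδ _
  have main : ∃ (C : ℕ → ℝ) (k : ℕ → ℕ), Function.Injective k ∧ (∀ j, 1 ≤ k j) ∧ (∀ j, 0 ≤ C j) ∧
      0 < C 0 ∧ Summable (fun j => C j * (k j : ℝ) ^ ((1 / 8 + δ) / 2)) ∧
      ∃ c > 0, ∃ᶠ N : ℕ in atTop, c * (N : ℝ) ^ (7 / 8 - δ / 2)
        ≤ R605.RiemannBox.V (R605.RiemannBox.G δ (R605.RiemannBox.gS C k)) N := by
    by_cases hB : ∀ k : ℕ, 1 ≤ k → ∀ c : ℝ, 0 < c →
      ∀ᶠ N : ℕ in atTop, R605.RiemannBox.V (fun x => R605.RiemannBox.R δ (k * x)) N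
        ≤ c * (N : ℝ) ^ (7 / 8 - δ / 2)
    · exact R605.RiemannBox.caseB hδ hB
    · push Not at hB
      obtain ⟨k, hk, c, hc, hfreq⟩ := hB
      refine ⟨fun j => if j = 0 then 1 else 0, fun j => k + j, fun a b h => by simpa using h,
        fun j => hk.trans (Nat.le_add_right k j), fun j => by dsimp only; split_ifs <;> norm_num, by simp, ?_, c, hc, ?_⟩
      · refine summable_of_ne_finset_zero (s := {0}) fun j hj => ?_
        have : j ≠ 0 := by simpa using hj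
        simp [this]
      · have hnn : ∀ j : ℕ, (0 : ℝ) ≤ (fun j : ℕ => if j = 0 then (1 : ℝ) else 0) j := fun j => by
          dsimp only; split_ifs <;> norm_num
        have hs : Summable (fun j : ℕ => if j = 0 then (1 : ℝ) else 0) :=
          summable_of_ne_finset_zero (s := {0}) fun j hj => by
            have : j ≠ 0 := by simpa using hj
            simp [this]
        have hG : R605.RiemannBox.G δ (R605.RiemannBox.gS (fun j => if j = 0 then 1 else 0) (fun j => k + j))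
            = fun x => R605.RiemannBox.R δ (k * x) := by
          funext x
          rw [R605.RiemannBox.G_gS hnn hs hδ, tsum_eq_single 0]
          · simp
          · intro j hj
            simp [hj]
        rw [hG]
        exact hfreq.mono fun N hN => hN.le
  obtain ⟨C, k, hinj, hk, hC, hC0, hs, c, hc, hfreq⟩ := main
  obtain ⟨h1, h2, h3, h4⟩ := R605.RiemannBox.assemble hδ hinj hk hC hC0 (by norm_num : (0:ℝ) < 1 / 8) hs
  refine ⟨R605.RiemannBox.gS C k, h1, h2, ⟨1 / 8, by norm_num, h3⟩, h4, ?_⟩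
  have hCs : Summable C := by
    refine Summable.of_nonneg_of_le hC (fun j => ?_) hs
    have : (1 : ℝ) ≤ (k j : ℝ) ^ ((1 / 8 + δ) / 2) :=
      Real.one_le_rpow (by exact_mod_cast hk j) (by positivity)
    nlinarith [hC j]
  have h5 : ∀ v : ℝ, v < 1 + (7 / 8 - δ / 2) →
      (v : EReal) ≤ upperBoxDim (G δ (R605.RiemannBox.gS C k)) := fun v hv =>
    R605.RiemannBox.dim_of_V (R605.RiemannBox.G_gS_cont hC hCs hδ) hc hfreq hv
  have h6 : ((15 / 8 - δ / 2 : ℝ) : EReal) ≤ upperBoxDim (G δ (R605.RiemannBox.gS C k)) := by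
    by_contra hlt
    obtain ⟨v, hv1, hv2⟩ := EReal.lt_iff_exists_real_btwn.mp (not_le.mp hlt)
    rw [EReal.coe_lt_coe_iff] at hv2
    exact absurd (h5 v (by linarith)) (not_le.mpr hv1)
  refine ⟨h6, lt_of_lt_of_le ?_ h6⟩
  rw [EReal.coe_lt_coe_iff]
  linarith

end Pool.Agent.Results.MP_dace02_an.LargeUpperBoxDim
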